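import Pool.Agent.Y660.RK.Torus

/-!
# The energy inequality and the ranks
-/

set_option autoImplicit false
open MeasureTheory Set Filter Topology
open scoped ContDiff RealInnerProductSpace

namespace Pool.Agent.Y660.RK

open Pool.Agent.H507R3.CM Pool.Agent.Results.MP_5aaff8_an.ExteriorBallRankJump

/-- The energy inequality. -/
lemma uK_min {k n m : ℕ} (hk : 1 ≤ k) {g : Fin k × Fin 2 → E m} {i : Fin k → Fin n} {il : Fin n}
    (hg : Orthonormal ℝ g) (hi : Function.Injective i) (hil : ∀ j, i j ≠ il)
    {Ω' : Set (E n)} (hΩ' : IsOpen Ω') (hcomp : IsCompact (closure Ω'))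
    (hsub : closure Ω' ⊆ cube n) {v : E n → E m} {Dv : E n → E n →L[ℝ] E m}
    (hv : W12 (cube n) v Dv) (hvM : ∀ᵐ x ∂(volume.restrict (cube n)), 1 ≤ ‖v x‖)
    (hvu : ∀ᵐ x ∂(volume.restrict (cube n)), x ∉ Ω' → v x = uK g i il x) :
    ∫ x in Ω', dens (DuK g i il x) ≤ ∫ x in Ω', dens (Dv x) := by
  have hfinm : IsFiniteMeasure (volume.restrict (cube n)) :=
    ⟨by rw [Measure.restrict_apply_univ]; exact cube_fin n⟩
  have hu : W12 (cube n) (uK g i il) (DuK g i il) :=
    W12_of_C1 (uK_hasFDerivAt g i il) (DuK_continuous g i il)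
  let j0 : Fin k := ⟨0, hk⟩
  set u := uK g i il with hudef
  set Du := DuK g i il with hDudef
  set w : E n → E m := fun x => v x - u x with hwdef
  set D : E n → E n →L[ℝ] E m := fun x => Dv x - Du x with hDdef
  have hw : MemLp w 2 (volume.restrict (cube n)) := hv.1.sub hu.1
  have hD : MemLp D 2 (volume.restrict (cube n)) := hv.2.1.sub hu.2.1
  have hwi : Integrable w (volume.restrict (cube n)) := hw.integrable (by norm_num)
  have hDi : ∀ e, MemLp (fun x => D x e) 2 (volume.restrict (cube n)) := fun e =>
    ((ContinuousLinearMap.apply ℝ (E m) e).comp_memLp' hD)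
  have hDvi : ∀ e, MemLp (fun x => Dv x e) 2 (volume.restrict (cube n)) := fun e =>
    ((ContinuousLinearMap.apply ℝ (E m) e).comp_memLp' hv.2.1)
  have hDui : ∀ e, MemLp (fun x => Du x e) 2 (volume.restrict (cube n)) := fun e =>
    ((ContinuousLinearMap.apply ℝ (E m) e).comp_memLp' hu.2.1)
  have hcK : IsCompact (closure (cube n)) := (cube_bounded n).isCompact_closure
  -- weak identity for the difference
  have hweak : ∀ φ : E n → ℝ, ContDiff ℝ ∞ φ → HasCompactSupport φ →
      tsupport φ ⊆ cube n → ∀ e : E n,
      ∫ x in cube n, fderiv ℝ φ x e • w x = - ∫ x in cube n, φ x • D x e := by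
    intro φ hφ hφc hφs e
    have h1 := hv.2.2 φ hφ hφc hφs e
    have h2 := hu.2.2 φ hφ hφc hφs e
    have hmul : ∀ (ρ : E n → ℝ) (_ : Continuous ρ)
        (G : E n → E m), Integrable G (volume.restrict (cube n)) →
        Integrable (fun x => ρ x • G x) (volume.restrict (cube n)) := by
      intro ρ hρ G hG
      obtain ⟨C, hC⟩ := hcK.exists_bound_of_continuousOn hρ.continuousOn
      refine hG.bdd_smul C hρ.aestronglyMeasurable ?_
      rw [ae_restrict_iff' (cube_open n).measurableSet]
      exact Filter.Eventually.of_forall fun x hx => hC x (subset_closure hx)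
    have hfd : Continuous (fun x => fderiv ℝ φ x e) :=
      (hφ.continuous_fderiv (by norm_num)).clm_apply continuous_const
    have a1 := hmul _ hfd _ (hv.1.integrable (by norm_num))
    have a2 := hmul _ hfd _ (hu.1.integrable (by norm_num))
    have a3 := hmul _ hφ.continuous _ ((hDvi e).integrable (by norm_num))
    have a4 := hmul _ hφ.continuous _ ((hDui e).integrable (by norm_num))
    have e1 : ∫ x in cube n, fderiv ℝ φ x e • w x
        = ∫ x in cube n, (fderiv ℝ φ x e • v x - fderiv ℝ φ x e • u x) := by
      congr 1; ext1 x; simp only [hwdef, smul_sub]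
    have e2 : ∫ x in cube n, φ x • D x e
        = ∫ x in cube n, (φ x • Dv x e - φ x • Du x e) := by
      congr 1; ext1 x
      show φ x • (Dv x e - Du x e) = _
      rw [smul_sub]
    rw [e1, e2, integral_sub a1 a2, integral_sub a3 a4, h1, h2]
    abel
  have hz : ∀ᵐ x ∂(volume.restrict (cube n)), x ∉ Ω' → w x = 0 := by
    filter_upwards [hvu] with x hx hxn
    simp only [hwdef]
    rw [hx hxn, sub_self]
  have hoff := deriv_off hcomp hsub hw hD hweak hz hΩ'
  have hpoi := poincare_cube hcomp hsub hw hD hweak hz (i j0)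
  have hibp := fun j : Fin k => ibp hcomp hsub hw hD hweak hz (i j) il (hil j) (ga hg j) (gb hg j)
    (gab hg j)
  set e0 : E n := EuclideanSpace.single (i j0) 1 with he0
  -- integrability of the densities
  have hdv : Integrable (fun x => dens (Dv x)) (volume.restrict (cube n)) := by
    unfold dens
    exact integrable_finsetSum _ fun i _ => (hDvi _).integrable_norm_pow (by norm_num)
  have hdu : Integrable (fun x => dens (Du x)) (volume.restrict (cube n)) := by
    unfold dens
    exact integrable_finsetSum _ fun i _ => (hDui _).integrable_norm_pow (by norm_num)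
  have hw2 : Integrable (fun x => ‖w x‖^2) (volume.restrict (cube n)) :=
    hw.integrable_norm_pow (by norm_num)
  have hD2 : Integrable (fun x => ‖D x e0‖^2) (volume.restrict (cube n)) :=
    (hDi e0).integrable_norm_pow (by norm_num)
  -- reduction to the cube
  have hΩc : Ω' ⊆ cube n := subset_closure.trans hsub
  have hred : ∫ x in cube n, (dens (Dv x) - dens (Du x))
      = ∫ x in Ω', (dens (Dv x) - dens (Du x)) := by
    rw [← Measure.restrict_restrict_of_subset hΩc]
    symm
    apply setIntegral_eq_integral_of_ae_compl_eq_zero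
    filter_upwards [hoff] with x hx hxn
    have h1 : Dv x = Du x := by
      have := hx hxn
      simp only [hDdef] at this
      exact sub_eq_zero.mp this
    rw [h1, sub_self]
  have hfin : 0 ≤ ∫ x in cube n, (dens (Dv x) - dens (Du x)) := by
    set Aj : Fin k → E n → ℝ := fun j x =>
        (⟪ch (x il) • TN (g (j, 0)) (g (j, 1)) (x (i j)), D x (EuclideanSpace.single (i j) 1)⟫
        + ⟪sh (x il) • TT (g (j, 0)) (g (j, 1)) (x (i j)), D x (EuclideanSpace.single il 1)⟫
        - (if x il ≤ 0 then ⟪TT (g (j, 0)) (g (j, 1)) (x (i j)), w x⟫ else 0)) with hAj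
    have hAji : ∀ j, Integrable (Aj j) (volume.restrict (cube n)) := by
      intro j
      have hmul : ∀ (Q : E n → E m) (_ : Continuous Q)
          (G : E n → E m), Integrable G (volume.restrict (cube n)) →
          Integrable (fun x => ⟪Q x, G x⟫) (volume.restrict (cube n)) := by
        intro Q hQ G hG
        obtain ⟨C, hC⟩ := hcK.exists_bound_of_continuousOn hQ.continuousOn
        refine Integrable.mono' (hG.norm.const_mul C) ?_ ?_
        · exact hQ.aestronglyMeasurable.inner hG.aestronglyMeasurable
        · rw [ae_restrict_iff' (cube_open n).measurableSet]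
          refine Filter.Eventually.of_forall fun x hx => ?_
          calc ‖⟪Q x, G x⟫‖ ≤ ‖Q x‖ * ‖G x‖ := norm_inner_le_norm _ _
            _ ≤ C * ‖G x‖ := by gcongr; exact hC x (subset_closure hx)
      have c0 : Continuous fun x : E n => x (i j) := by fun_prop
      have c1 : Continuous fun x : E n => x il := by fun_prop
      have k1 : Continuous fun x : E n => ch (x il) • TN (g (j, 0)) (g (j, 1)) (x (i j)) :=
        (ch_continuous.comp c1).smul ((TN_contDiff _ _).continuous.comp c0)
      have k2 : Continuous fun x : E n => sh (x il) • TT (g (j, 0)) (g (j, 1)) (x (i j)) :=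
        (sh_continuous.comp c1).smul ((TT_contDiff _ _).continuous.comp c0)
      have k3 : Continuous fun x : E n => TT (g (j, 0)) (g (j, 1)) (x (i j)) :=
        (TT_contDiff _ _).continuous.comp c0
      have j1 := hmul _ k1 _ ((hDi (EuclideanSpace.single (i j) 1)).integrable (by norm_num))
      have j2 := hmul _ k2 _ ((hDi (EuclideanSpace.single il 1)).integrable (by norm_num))
      have j3 := hmul _ k3 _ hwi
      have hms : MeasurableSet {x : E n | x il ≤ 0} := measurableSet_le c1.measurable measurable_const
      have j4 : Integrable (fun x : E n =>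
          if x il ≤ 0 then ⟪TT (g (j, 0)) (g (j, 1)) (x (i j)), w x⟫ else 0)
          (volume.restrict (cube n)) := by
        have : (fun x : E n => if x il ≤ 0 then ⟪TT (g (j, 0)) (g (j, 1)) (x (i j)), w x⟫ else 0)
            = {x : E n | x il ≤ 0}.indicator
              (fun x => ⟪TT (g (j, 0)) (g (j, 1)) (x (i j)), w x⟫) := by
          funext x
          by_cases hx : x il ≤ 0
          · rw [if_pos hx, indicator_of_mem (by exact hx)]
          · rw [if_neg hx, indicator_of_notMem (by exact hx)]
        rw [this]
        exact j3.indicator hms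
      exact (j1.add j2).sub j4
    set A : E n → ℝ := fun x => ∑ j, cK k * Aj j x with hA
    have hAi : Integrable A (volume.restrict (cube n)) :=
      integrable_finsetSum _ fun j _ => (hAji j).const_mul (cK k)
    have hA0 : ∫ x in cube n, A x = 0 := by
      simp only [hA]
      rw [integral_finsetSum _ fun j _ => (hAji j).const_mul (cK k)]
      refine Finset.sum_eq_zero fun j _ => ?_
      rw [integral_const_mul, hibp j, mul_zero]
    have hpt : ∀ᵐ x ∂(volume.restrict (cube n)),
        2 * A x - ‖w x‖^2 + ‖D x e0‖^2 ≤ dens (Dv x) - dens (Du x) := by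
      filter_upwards [hvM] with x hx
      have hexp : dens (Dv x) - dens (Du x)
          = ∑ i : Fin n, (2 * ⟪Du x (EuclideanSpace.single i 1), D x (EuclideanSpace.single i 1)⟫
            + ‖D x (EuclideanSpace.single i 1)‖^2) := by
        unfold dens
        rw [← Finset.sum_sub_distrib]
        apply Finset.sum_congr rfl
        intro i _
        have h1 : Dv x (EuclideanSpace.single i 1)
            = Du x (EuclideanSpace.single i 1) + D x (EuclideanSpace.single i 1) := by
          show _ = _ + (Dv x (EuclideanSpace.single i 1) - Du x (EuclideanSpace.single i 1))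
          abel
        rw [h1, norm_add_sq_real]
        ring
      rw [hexp, Finset.sum_add_distrib, ← Finset.mul_sum]
      have hs1 := sum_inner_DuK (g := g) hi hil x (D x)
      have hs2 : ‖D x e0‖^2 ≤ ∑ i : Fin n, ‖D x (EuclideanSpace.single i 1)‖^2 :=
        Finset.single_le_sum (f := fun i => ‖D x (EuclideanSpace.single i 1)‖^2)
          (fun i _ => sq_nonneg _) (Finset.mem_univ (i j0))
      have hAx : A x = (∑ j, cK k * (⟪ch (x il) • TN (g (j, 0)) (g (j, 1)) (x (i j)),
            D x (EuclideanSpace.single (i j) 1)⟫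
          + ⟪sh (x il) • TT (g (j, 0)) (g (j, 1)) (x (i j)), D x (EuclideanSpace.single il 1)⟫))
          - (if x il ≤ 0 then ⟪vK g i x, w x⟫ else 0) := by
        have h1 : (if x il ≤ 0 then ⟪vK g i x, w x⟫ else 0)
            = ∑ j, cK k * (if x il ≤ 0 then ⟪TT (g (j, 0)) (g (j, 1)) (x (i j)), w x⟫ else 0) := by
          split_ifs
          · unfold vK
            rw [sum_inner]
            refine Finset.sum_congr rfl fun j _ => ?_
            rw [inner_smul_left]
            simp
          · simp
        rw [h1, ← Finset.sum_sub_distrib]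
        simp only [hA, hAj]
        refine Finset.sum_congr rfl fun j _ => ?_
        ring
      have hs3 : -‖w x‖^2 ≤ 2 * (if x il ≤ 0 then ⟪vK g i x, w x⟫ else 0) := by
        by_cases hxi : x il ≤ 0
        · rw [if_pos hxi]
          have hux : u x = vK g i x := by
            rw [hudef, uK_eq]
            have : ch (x il) = 1 := by unfold ch; rw [max_eq_right hxi]; simp
            rw [this, one_smul]
          have hvx : v x = vK g i x + w x := by
            simp only [hwdef]; rw [hux]; abel
          have h2 : 1 ≤ ‖vK g i x + w x‖^2 := by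
            rw [← hvx]; nlinarith
          rw [norm_add_sq_real, vK_norm i hg hk] at h2
          linarith
        · rw [if_neg hxi, mul_zero]
          nlinarith [sq_nonneg ‖w x‖]
      rw [hs1, hAx]
      linarith
    have hint : Integrable (fun x => 2 * A x - ‖w x‖^2 + ‖D x e0‖^2) (volume.restrict (cube n)) :=
      ((hAi.const_mul 2).sub hw2).add hD2
    have hmono := integral_mono_ae hint (hdv.sub hdu) hpt
    have hcalc : ∫ x in cube n, (2 * A x - ‖w x‖^2 + ‖D x e0‖^2)
        = 2 * (∫ x in cube n, A x) - (∫ x in cube n, ‖w x‖^2) + (∫ x in cube n, ‖D x e0‖^2) := by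
      have q1 : Integrable (fun x => 2 * A x - ‖w x‖^2) (volume.restrict (cube n)) :=
        (hAi.const_mul 2).sub hw2
      rw [integral_add q1 hD2, integral_sub (hAi.const_mul 2) hw2, integral_const_mul]
    rw [hcalc, hA0] at hmono
    have : (0:ℝ) ≤ 2 * 0 - (∫ x in cube n, ‖w x‖^2) + (∫ x in cube n, ‖D x e0‖^2) := by linarith
    exact this.trans hmono
  rw [hred] at hfin
  have r1 : Integrable (fun x => dens (Dv x)) (volume.restrict Ω') :=
    hdv.mono_measure (Measure.restrict_mono hΩc le_rfl)
  have r2 : Integrable (fun x => dens (Du x)) (volume.restrict Ω') :=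
    hdu.mono_measure (Measure.restrict_mono hΩc le_rfl)
  rw [integral_sub r1 r2] at hfin
  linarith


section ranks

variable {k n m : ℕ} {g : Fin k × Fin 2 → E m} {i : Fin k → Fin n} {il : Fin n}

lemma DuK_apply (x y : E n) : DuK g i il x y
    = (∑ j, (cK k * (y (i j) * ch (x il))) • TN (g (j, 0)) (g (j, 1)) (x (i j)))
      + (y il * sh (x il)) • vK g i x := by
  unfold DuK vK DuM
  rw [ContinuousLinearMap.sum_apply, Finset.smul_sum, ← Finset.sum_add_distrib]
  refine Finset.sum_congr rfl fun j _ => ?_
  have hp : ∀ a, (EuclideanSpace.proj a : E n →L[ℝ] ℝ) y = y a := fun _ => rfl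
  simp only [ContinuousLinearMap.smul_apply, ContinuousLinearMap.add_apply,
    ContinuousLinearMap.smulRight_apply, hp, smul_add, smul_smul]
  congr 1 <;> congr 1 <;> ring

/-- rank `k` where the last variable is negative -/
lemma rk_neg (hk : 1 ≤ k) (hg : Orthonormal ℝ g) (hi : Function.Injective i)
    (hil : ∀ j, i j ≠ il) (x : E n) (hx : x il < 0) : rk (DuK g i il x) = k := by
  unfold rk
  have hs : sh (x il) = 0 := by unfold sh; rw [max_eq_right hx.le]; simp
  have hc : ch (x il) = 1 := by unfold ch; rw [max_eq_right hx.le]; simp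
  set f : Fin k → E m := fun j => TN (g (j, 0)) (g (j, 1)) (x (i j)) with hf
  have ho : Orthonormal ℝ f := ⟨fun j => TN_norm (ga hg j) (gb hg j) (gab hg j) _,
    fun j l h => TN_TN hg h _ _⟩
  have hr : LinearMap.range (DuK g i il x : E n →ₗ[ℝ] E m) = Submodule.span ℝ (Set.range f) := by
    apply le_antisymm
    · rintro _ ⟨y, rfl⟩
      show DuK g i il x y ∈ _
      rw [DuK_apply, hs, mul_zero, zero_smul, add_zero]
      exact Submodule.sum_mem _ fun j _ =>
        Submodule.smul_mem _ _ (Submodule.subset_span (Set.mem_range_self j))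
    · rw [Submodule.span_le]
      rintro _ ⟨j, rfl⟩
      refine ⟨(cK k)⁻¹ • EuclideanSpace.single (i j) 1, ?_⟩
      show DuK g i il x _ = _
      rw [map_smul, DuK_e hi hil, hc, one_smul, smul_smul, inv_mul_cancel₀ (cK_pos hk).ne', one_smul]
  rw [hr, finrank_span_eq_card ho.linearIndependent, Fintype.card_fin]

/-- rank `k + 1` where the last variable is positive -/
lemma rk_pos (hk : 1 ≤ k) (hg : Orthonormal ℝ g) (hi : Function.Injective i)
    (hil : ∀ j, i j ≠ il) (x : E n) (hx : 0 < x il) : rk (DuK g i il x) = k + 1 := by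
  unfold rk
  have hsh : 0 < sh (x il) := by
    unfold sh; rw [max_eq_left hx.le]; exact Real.sinh_pos_iff.mpr hx
  have hch : 0 < ch (x il) := by unfold ch; exact Real.cosh_pos _
  set f : Option (Fin k) → E m := fun o =>
    o.elim (vK g i x) (fun j => TN (g (j, 0)) (g (j, 1)) (x (i j))) with hf
  have ho : Orthonormal ℝ f := by
    constructor
    · rintro (_ | j)
      · exact vK_norm i hg hk x
      · exact TN_norm (ga hg j) (gb hg j) (gab hg j) _
    · rintro (_ | j) (_ | l) h
      · exact absurd rfl h
      · exact vK_TN i hg x l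
      · show ⟪TN (g (j, 0)) (g (j, 1)) (x (i j)), vK g i x⟫ = 0
        rw [real_inner_comm]
        exact vK_TN i hg x j
      · exact TN_TN hg (fun h' => h (by rw [h'])) _ _
  have hr : LinearMap.range (DuK g i il x : E n →ₗ[ℝ] E m) = Submodule.span ℝ (Set.range f) := by
    apply le_antisymm
    · rintro _ ⟨y, rfl⟩
      show DuK g i il x y ∈ _
      rw [DuK_apply]
      refine Submodule.add_mem _ (Submodule.sum_mem _ fun j _ =>
        Submodule.smul_mem _ _ (Submodule.subset_span ⟨some j, rfl⟩)) ?_
      exact Submodule.smul_mem _ _ (Submodule.subset_span ⟨none, rfl⟩)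
    · rw [Submodule.span_le]
      rintro _ ⟨o, rfl⟩
      rcases o with _ | j
      · refine ⟨(sh (x il))⁻¹ • EuclideanSpace.single il 1, ?_⟩
        show DuK g i il x _ = vK g i x
        rw [map_smul, DuK_l hil, smul_smul, inv_mul_cancel₀ hsh.ne', one_smul]
      · refine ⟨(cK k * ch (x il))⁻¹ • EuclideanSpace.single (i j) 1, ?_⟩
        show DuK g i il x _ = TN (g (j, 0)) (g (j, 1)) (x (i j))
        rw [map_smul, DuK_e hi hil, smul_smul, smul_smul, mul_assoc,
          inv_mul_cancel₀ (mul_pos (cK_pos hk) hch).ne', one_smul]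
  rw [hr, finrank_span_eq_card ho.linearIndependent, Fintype.card_option, Fintype.card_fin]

end ranks

end Pool.Agent.Y660.RK
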