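import Pool.Agent.Results.MP_5aaff8_an.ExteriorBallRankJump

/-!
# Minimizing constraint maps of rank `k` with a rank jump to `k + 1`

The map is `u x = cosh (x_last⁺) • v x`, where `v` is the standard harmonic map of the flat torus
`v x = k^{-1/2} (cos x₁, sin x₁, …, cos x_k, sin x_k)`.
-/

set_option autoImplicit false
open MeasureTheory Set Filter Topology
open scoped ContDiff RealInnerProductSpace

namespace Pool.Agent.Y660.RK

open Pool.Agent.H507R3.CM Pool.Agent.Results.MP_5aaff8_an.ExteriorBallRankJump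

section gen

variable {n m : ℕ}

lemma weak_of_C1 {u : E n → E m} {Du : E n → E n →L[ℝ] E m}
    (hu : ∀ x, HasFDerivAt u (Du x) x) (hD : Continuous Du) : IsWeakDeriv (cube n) u Du := by
  intro φ hφ hφc hφs e
  have hcu : Continuous u := continuous_iff_continuousAt.mpr fun x => (hu x).continuousAt
  have hfd : Continuous (fun x => fderiv ℝ φ x e) :=
    (hφ.continuous_fderiv (by norm_num)).clm_apply continuous_const
  have hsf : HasCompactSupport (fun x => fderiv ℝ φ x e) := hφc.fderiv_apply ℝ e
  have i1' : Integrable (fun x => fderiv ℝ φ x e • u x) :=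
    (hfd.smul hcu).integrable_of_hasCompactSupport hsf.smul_right
  have i3' : Integrable (fun x => φ x • u x) :=
    (hφ.continuous.smul hcu).integrable_of_hasCompactSupport hφc.smul_right
  have hDe : Continuous (fun x => Du x e) := hD.clm_apply continuous_const
  have hfe : ∀ x, fderiv ℝ u x = Du x := fun x => (hu x).fderiv
  have i2' : Integrable (fun x => φ x • fderiv ℝ u x e) := by
    simp only [hfe]
    exact (hφ.continuous.smul hDe).integrable_of_hasCompactSupport hφc.smul_right
  have h := integral_smul_fderiv_eq_neg_fderiv_smul_of_integrable (μ := volume) i1' i2' i3'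
    (fun x _ => hφ.differentiable (by norm_num) x)
    (fun x _ => (hu x).differentiableAt)
  simp only [hfe] at h
  rw [setIntegral_eq_integral_of_forall_compl_eq_zero,
    setIntegral_eq_integral_of_forall_compl_eq_zero, h, neg_neg]
  · intro x hx
    have : x ∉ tsupport φ := fun h => hx (hφs h)
    rw [image_eq_zero_of_notMem_tsupport this, zero_smul]
  · intro x hx
    have : x ∉ tsupport φ := fun h => hx (hφs h)
    have h2 : fderiv ℝ φ x = 0 := by
      have h3 : x ∉ tsupport (fderiv ℝ φ) := fun h => this (tsupport_fderiv_subset ℝ h)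
      exact image_eq_zero_of_notMem_tsupport h3
    rw [h2]; simp

lemma W12_of_C1 {u : E n → E m} {Du : E n → E n →L[ℝ] E m}
    (hu : ∀ x, HasFDerivAt u (Du x) x) (hD : Continuous Du) : W12 (cube n) u Du :=
  ⟨cont_memLp (continuous_iff_continuousAt.mpr fun x => (hu x).continuousAt), cont_memLp hD,
    weak_of_C1 hu hD⟩

end gen

section torus

variable {k n m : ℕ} (g : Fin k × Fin 2 → E m) (i : Fin k → Fin n) (il : Fin n)

/-- the normalising factor -/
noncomputable def cK (k : ℕ) : ℝ := (Real.sqrt k)⁻¹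

lemma cK_pos (hk : 1 ≤ k) : 0 < cK k := by
  unfold cK
  have : (0 : ℝ) < k := by exact_mod_cast hk
  positivity

lemma cK_sq (hk : 1 ≤ k) : (k : ℝ) * (cK k * cK k) = 1 := by
  have h0 : (0 : ℝ) < k := by exact_mod_cast hk
  unfold cK
  have h1 := Real.mul_self_sqrt h0.le
  have h2 : Real.sqrt k ≠ 0 := (Real.sqrt_pos.2 h0).ne'
  field_simp
  nlinarith [h1]

/-- the harmonic map of the torus -/
noncomputable def vK (x : E n) : E m := ∑ j, cK k • TT (g (j, 0)) (g (j, 1)) (x (i j))

/-- the map -/
noncomputable def uK (x : E n) : E m := ∑ j, cK k • uM (g (j, 0)) (g (j, 1)) (i j) il x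

/-- its derivative -/
noncomputable def DuK (x : E n) : E n →L[ℝ] E m :=
  ∑ j, cK k • DuM (g (j, 0)) (g (j, 1)) (i j) il x

lemma uK_hasFDerivAt (x : E n) : HasFDerivAt (uK g i il) (DuK g i il x) x := by
  unfold uK DuK
  exact HasFDerivAt.fun_sum fun j _ => (uM_hasFDerivAt _ _ (i j) il x).const_smul (cK k)

lemma uK_continuous : Continuous (uK g i il) :=
  continuous_iff_continuousAt.mpr fun x => (uK_hasFDerivAt g i il x).continuousAt

lemma DuK_continuous : Continuous (DuK g i il) := by
  unfold DuK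
  exact continuous_finset_sum _ fun j _ => (DuM_continuous _ _ (i j) il).const_smul (cK k)

lemma uK_eq (x : E n) : uK g i il x = ch (x il) • vK g i x := by
  unfold uK vK uM
  rw [Finset.smul_sum]
  refine Finset.sum_congr rfl fun j _ => ?_
  rw [smul_comm]

variable {g}

section orth

variable (hg : Orthonormal ℝ g)
include hg

lemma inner_g (p q : Fin k × Fin 2) : ⟪g p, g q⟫ = if p = q then 1 else 0 :=
  orthonormal_iff_ite.1 hg p q

lemma ga (j : Fin k) : ‖g (j, 0)‖ = 1 := hg.1 _
lemma gb (j : Fin k) : ‖g (j, 1)‖ = 1 := hg.1 _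
lemma gab (j : Fin k) : ⟪g (j, 0), g (j, 1)⟫ = 0 := hg.2 (by simp)

lemma TT_TT {j l : Fin k} (h : j ≠ l) (s t : ℝ) :
    ⟪TT (g (j, 0)) (g (j, 1)) s, TT (g (l, 0)) (g (l, 1)) t⟫ = 0 := by
  unfold TT
  simp [inner_add_left, inner_add_right, inner_smul_left, inner_smul_right, inner_g hg, h]

lemma TN_TN {j l : Fin k} (h : j ≠ l) (s t : ℝ) :
    ⟪TN (g (j, 0)) (g (j, 1)) s, TN (g (l, 0)) (g (l, 1)) t⟫ = 0 := by
  unfold TN
  simp [inner_add_left, inner_add_right, inner_smul_left, inner_smul_right, inner_g hg, h]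

lemma TT_TN' {j l : Fin k} (h : j ≠ l) (s t : ℝ) :
    ⟪TT (g (j, 0)) (g (j, 1)) s, TN (g (l, 0)) (g (l, 1)) t⟫ = 0 := by
  unfold TT TN
  simp [inner_add_left, inner_add_right, inner_smul_left, inner_smul_right, inner_g hg, h]

lemma vK_inner (hk : 1 ≤ k) (x : E n) : ⟪vK g i x, vK g i x⟫ = 1 := by
  unfold vK
  rw [sum_inner]
  have h1 : ∀ j ∈ (Finset.univ : Finset (Fin k)),
      ⟪cK k • TT (g (j, 0)) (g (j, 1)) (x (i j)),
        ∑ l, cK k • TT (g (l, 0)) (g (l, 1)) (x (i l))⟫ = cK k * cK k := by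
    intro j _
    rw [inner_sum, Finset.sum_eq_single j]
    · rw [inner_smul_left, inner_smul_right, TT_inner_self (ga hg j) (gb hg j) (gab hg j)]
      simp
    · intro l _ hl
      rw [inner_smul_left, inner_smul_right, TT_TT hg (Ne.symm hl)]
      simp
    · intro h; exact absurd (Finset.mem_univ j) h
  rw [Finset.sum_congr rfl h1, Finset.sum_const, Finset.card_univ, Fintype.card_fin, nsmul_eq_mul]
  exact cK_sq hk

lemma vK_norm (hk : 1 ≤ k) (x : E n) : ‖vK g i x‖ = 1 := by
  have h := vK_inner i hg hk x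
  rw [real_inner_self_eq_norm_sq] at h
  nlinarith [norm_nonneg (vK g i x)]

lemma vK_TN (x : E n) (j : Fin k) : ⟪vK g i x, TN (g (j, 0)) (g (j, 1)) (x (i j))⟫ = 0 := by
  unfold vK
  rw [sum_inner]
  refine Finset.sum_eq_zero fun l _ => ?_
  rw [inner_smul_left]
  rcases eq_or_ne l j with rfl | h
  · rw [TT_TN (ga hg l) (gb hg l) (gab hg l), mul_zero]
  · rw [TT_TN' hg h, mul_zero]

lemma uK_norm_ge (hk : 1 ≤ k) (x : E n) : 1 ≤ ‖uK g i il x‖ := by
  rw [uK_eq, norm_smul, vK_norm i hg hk, mul_one, Real.norm_eq_abs]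
  unfold ch
  exact (Real.one_le_cosh _).trans (le_abs_self _)

end orth

variable {i il} (hi : Function.Injective i) (hil : ∀ j, i j ≠ il)
include hi hil

lemma DuK_e (x : E n) (j : Fin k) :
    DuK g i il x (EuclideanSpace.single (i j) 1)
      = cK k • ch (x il) • TN (g (j, 0)) (g (j, 1)) (x (i j)) := by
  unfold DuK
  rw [ContinuousLinearMap.sum_apply, Finset.sum_eq_single j]
  · rw [ContinuousLinearMap.smul_apply, DuM_e0 (i j) il (hil j)]
  · intro l _ hl
    rw [ContinuousLinearMap.smul_apply, DuM_e (i l) il (fun h => hl (hi h).symm) (hil j), smul_zero]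
  · intro h; exact absurd (Finset.mem_univ j) h

omit hi in
lemma DuK_l (x : E n) :
    DuK g i il x (EuclideanSpace.single il 1) = sh (x il) • vK g i x := by
  unfold DuK vK
  rw [ContinuousLinearMap.sum_apply, Finset.smul_sum]
  refine Finset.sum_congr rfl fun j _ => ?_
  rw [ContinuousLinearMap.smul_apply, DuM_e1 (i j) il (hil j), smul_comm]

omit hi hil in
lemma DuK_0 (x : E n) {a : Fin n} (h1 : ∀ j, a ≠ i j) (h2 : a ≠ il) :
    DuK g i il x (EuclideanSpace.single a 1) = 0 := by
  unfold DuK
  rw [ContinuousLinearMap.sum_apply]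
  refine Finset.sum_eq_zero fun j _ => ?_
  rw [ContinuousLinearMap.smul_apply, DuM_e (i j) il (h1 j) h2, smul_zero]

/-- The sum over all coordinates of the inner products with the derivative. -/
lemma sum_inner_DuK (x : E n) (D : E n →L[ℝ] E m) :
    ∑ a : Fin n, ⟪DuK g i il x (EuclideanSpace.single a 1), D (EuclideanSpace.single a 1)⟫
      = ∑ j, cK k * (⟪ch (x il) • TN (g (j, 0)) (g (j, 1)) (x (i j)),
            D (EuclideanSpace.single (i j) 1)⟫
          + ⟪sh (x il) • TT (g (j, 0)) (g (j, 1)) (x (i j)), D (EuclideanSpace.single il 1)⟫) := by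
  classical
  have hdis : il ∉ Finset.univ.image i := by
    simp only [Finset.mem_image, Finset.mem_univ, true_and, not_exists]
    exact hil
  rw [← Finset.sum_subset (Finset.subset_univ (insert il (Finset.univ.image i)))]
  · rw [Finset.sum_insert hdis, Finset.sum_image (fun a _ b _ h => hi h), DuK_l hil]
    have h1 : ∀ j, ⟪DuK g i il x (EuclideanSpace.single (i j) 1), D (EuclideanSpace.single (i j) 1)⟫
        = cK k * ⟪ch (x il) • TN (g (j, 0)) (g (j, 1)) (x (i j)),
            D (EuclideanSpace.single (i j) 1)⟫ := by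
      intro j
      rw [DuK_e hi hil, inner_smul_left]
      simp
    simp only [h1]
    unfold vK
    rw [Finset.smul_sum, sum_inner, ← Finset.sum_add_distrib]
    refine Finset.sum_congr rfl fun j _ => ?_
    rw [smul_comm, inner_smul_left]
    simp only [conj_trivial]
    ring
  · intro a _ ha
    simp only [Finset.mem_insert, Finset.mem_image, Finset.mem_univ, true_and, not_or,
      not_exists] at ha
    rw [DuK_0 x (fun j h => ha.2 j h.symm) ha.1, inner_zero_left]

end torus

end Pool.Agent.Y660.RK
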